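import Pool.Agent.W317.CT.Stm

set_option autoImplicit false

namespace Pool.Agent.W317.CT

theorem lim : S_LIM := by
  intro I U F hF
  have key : ∀ g, ∃ x : E × W, Filter.Tendsto (fun n => F n g) (U : Filter I) (nhds x) := by
    intro g
    obtain ⟨r, hr⟩ := hF g
    have hcomp : IsCompact (Metric.closedBall (0 : E × W) (max r (r ^ 2))) := isCompact_closedBall _ _
    have hmem : ∀ᶠ n in (U : Filter I), F n g ∈ Metric.closedBall (0 : E × W) (max r (r ^ 2)) := by
      filter_upwards [hr] with n hn
      rw [mem_closedBall_zero_iff, Prod.norm_def]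
      have h0 := N_nonneg (F n g)
      apply max_le_max
      · exact (norm_fst_le_N _).trans hn
      · exact (norm_snd_le_N _).trans (pow_le_pow_left₀ h0 hn 2)
    obtain ⟨x, -, hx⟩ := hcomp.ultrafilter_le_nhds (U.map fun n => F n g)
      (Filter.le_principal_iff.2 hmem)
    exact ⟨x, hx⟩
  choose G hG using key
  exact ⟨G, hG⟩

theorem tendsto_d (b : Form) {I : Type} {l : Filter I} {u v : I → E × W} {x y : E × W}
    (hu : Filter.Tendsto u l (nhds x)) (hv : Filter.Tendsto v l (nhds y)) :
    Filter.Tendsto (fun n => d b (u n) (v n)) l (nhds (d b x y)) := by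
  have h2 : Filter.Tendsto (fun p : (E × W) × (E × W) => d b p.1 p.2) (nhds (x, y))
      (nhds (d b x y)) := by
    have h := continuous_d b
    rw [continuous_iff_continuousAt] at h
    exact h (x, y)
  have h1 : Filter.Tendsto (fun n => (u n, v n)) l (nhds (x, y)) := hu.prodMk_nhds hv
  generalize hD : (fun p : (E × W) × (E × W) => d b p.1 p.2) = D at h2
  have h3 := h2.comp h1
  have h4 : (D ∘ fun n => (u n, v n)) = fun n => d b (u n) (v n) := by
    subst hD; rfl
  rw [h4] at h3
  exact h3

theorem bilip (hL : S_LIM) : S_BILIP := by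
  intro b b' F K C hK hF
  let c : ℕ → ℝ := fun n => 1 / ((n : ℝ) + 1)
  have hc0 : ∀ n, 0 < c n := fun n => by positivity
  have hc1 : ∀ n, c n ≤ 1 := fun n => by
    simp only [c]
    rw [div_le_one (by positivity)]
    have : (0:ℝ) ≤ n := Nat.cast_nonneg n
    linarith
  obtain ⟨Fn, hFn⟩ : ∃ Fn : ℕ → E × W → E × W, ∀ n g, Fn n g =
    dil (c n) (mul b' (inv (F 0)) (F (dil (1 / c n) g))) := ⟨_, fun _ _ => rfl⟩
  have hFn0 : ∀ n, Fn n 0 = 0 := fun n => by simp [hFn]
  have hd : ∀ n g h, d b' (Fn n g) (Fn n h) = c n * d b' (F (dil (1 / c n) g)) (F (dil (1 / c n) h)) := by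
    intro n g h
    rw [hFn, hFn, d_dil, d_mul_left, abs_of_pos (hc0 n)]
  have hdd : ∀ n g h, d b (dil (1 / c n) g) (dil (1 / c n) h) = d b g h / c n := by
    intro n g h
    rw [d_dil, abs_of_pos (by have := hc0 n; positivity)]
    ring
  have hlow : ∀ n g h, d b g h / K - C * c n ≤ d b' (Fn n g) (Fn n h) := by
    intro n g h
    have h1 := (hF (dil (1 / c n) g) (dil (1 / c n) h)).1
    rw [hdd] at h1
    rw [hd]
    have h2 := mul_le_mul_of_nonneg_left h1 (hc0 n).le
    have hne := (hc0 n).ne'
    have e : c n * (d b g h / c n / K - C) = d b g h / K - C * c n := by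
      field_simp
    rw [e] at h2
    exact h2
  have hup : ∀ n g h, d b' (Fn n g) (Fn n h) ≤ K * d b g h + C * c n := by
    intro n g h
    have h1 := (hF (dil (1 / c n) g) (dil (1 / c n) h)).2
    rw [hdd] at h1
    rw [hd]
    have h2 := mul_le_mul_of_nonneg_left h1 (hc0 n).le
    have hne := (hc0 n).ne'
    have e : c n * (K * (d b g h / c n) + C) = K * d b g h + C * c n := by
      field_simp
    rw [e] at h2
    exact h2
  let U : Ultrafilter ℕ := Ultrafilter.of Filter.atTop
  have hU : (U : Filter ℕ) ≤ Filter.atTop := Ultrafilter.of_le _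
  have hclim : Filter.Tendsto c (U : Filter ℕ) (nhds 0) :=
    tendsto_one_div_add_atTop_nhds_zero_nat.mono_left hU
  obtain ⟨G, hG⟩ := hL ℕ U Fn (by
    intro g
    refine ⟨K * N g + |C|, Filter.Eventually.of_forall fun n => ?_⟩
    have h1 := hup n 0 g
    rw [hFn0, d_zero_left, d_zero_left] at h1
    have h2 : C * c n ≤ |C| := by
      calc C * c n ≤ |C| * c n := mul_le_mul_of_nonneg_right (le_abs_self C) (hc0 n).le
        _ ≤ |C| * 1 := mul_le_mul_of_nonneg_left (hc1 n) (abs_nonneg C)
        _ = |C| := mul_one _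
    linarith)
  have hGd : ∀ g h, Filter.Tendsto (fun n => d b' (Fn n g) (Fn n h)) (U : Filter ℕ)
      (nhds (d b' (G g) (G h))) := by
    intro g h
    exact tendsto_d b' (hG g) (hG h)
  refine ⟨G, ?_, ?_⟩
  · have h0 : Filter.Tendsto (fun n => Fn n 0) (U : Filter ℕ) (nhds 0) := by
      simp only [hFn0]
      exact tendsto_const_nhds
    exact tendsto_nhds_unique (hG 0) h0
  · intro g h
    constructor
    · have h1 : Filter.Tendsto (fun n => d b g h / K - C * c n) (U : Filter ℕ) (nhds (d b g h / K - C * 0)) :=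
        tendsto_const_nhds.sub (tendsto_const_nhds.mul hclim)
      rw [mul_zero, sub_zero] at h1
      exact le_of_tendsto_of_tendsto' h1 (hGd g h) fun n => hlow n g h
    · have h1 : Filter.Tendsto (fun n => K * d b g h + C * c n) (U : Filter ℕ) (nhds (K * d b g h + C * 0)) :=
        tendsto_const_nhds.add (tendsto_const_nhds.mul hclim)
      rw [mul_zero, add_zero] at h1
      exact le_of_tendsto_of_tendsto' (hGd g h) h1 fun n => hup n g h

end Pool.Agent.W317.CT
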