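import Pool.Agent.W317.CT.Stm

set_option autoImplicit false

/-! Assembly: all parts give the graph. -/

namespace Pool.Agent.W317.CT

theorem pansu (h1 : S_BILIP) (h2 : S_UNIT) (h3 : S_ZOOM) (h4 : S_STR) (h5 : S_HOM) (h6 : S_ALG) :
    S_PANSU := by
  intro b b' F K C hK hs hc
  obtain ⟨G, g0, gB⟩ := h1 b b' F K C hK hc
  obtain ⟨G2, a, g20, g2B, g2⟩ := h2 b b' G K hK g0 gB
  obtain ⟨G3, g30, g3B, g3⟩ := h3 b b' G2 K a hK g20 g2B g2
  exact h6 b b' G3 K hK g3B (h5 b b' G3 a hs g30 (h4 b b' G3 K a hK g3B g3))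

/-- the finitely presented group with code `x` is coarsely equivalent to `G_lam` -/
def Code (lam : ℝ) (x : Σ k : ℕ, Finset (FreeGroup (Fin k))) : Prop :=
  ∃ (b : Form) (H : Type) (_ : Group H) (p : FreeGroup (Fin x.1) →* H) (F : E × W → H) (K C : ℝ),
    IsForm lam b ∧ Span b ∧ Function.Surjective p ∧ 0 < K ∧
    Coarse (d b) (fun g h : H => (wl p (g⁻¹ * h) : ℝ)) F K C ∧
    (∀ h : H, ∃ a : E × W, (wl p ((F a)⁻¹ * h) : ℝ) ≤ C) ∧
    Subgroup.normalClosure (x.2 : Set (FreeGroup (Fin x.1))) = p.ker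

theorem code_inj (hC : S_CODE) (hP : S_PANSU) (hR : S_RIG) {lam mu : ℝ} (l0 : 0 < lam)
    (l1 : lam < 1 / 2) (m0 : 0 < mu) (m1 : mu < 1 / 2) (x : Σ k : ℕ, Finset (FreeGroup (Fin k)))
    (h1 : Code lam x) (h2 : Code mu x) : lam = mu := by
  obtain ⟨b, H, iH, p, F, K, C, hf, hs, hp, hK, hc, hsu, hn⟩ := h1
  obtain ⟨b', H', iH', p', F', K', C', hf', hs', hp', hK', hc', hsu', hn'⟩ := h2
  obtain ⟨f, L, M, hL, hfc⟩ := hC b b' H H' x.1 p p' hp hp' (hn.symm.trans hn') F F' K C K' C' hK hK'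
    hc hc' hsu'
  obtain ⟨A, T, hA, hT, hAT⟩ := hP b b' f L M hL hs hfc
  exact hR lam mu l0 l1 m0 m1 b b' hf hf' A T hA hT hAT

/-- the frozen statement -/
def Target : Prop :=
    ∃ (V : Type) (G : SimpleGraph V),
      G.Connected ∧ (∀ v, (G.neighborSet v).Finite) ∧
      (∃ (v₀ : V) (c d : ℕ), ∀ r : ℕ,
          Set.ncard {w | G.dist v₀ w ≤ r} ≤ c * (r + 1) ^ d) ∧
      (∃ n : ℕ, ∀ R : ℕ, ∃ (ι : Type) (U : ι → Set V) (D : ℕ),
          (∀ i, ∀ x ∈ U i, ∀ y ∈ U i, G.dist x y ≤ D) ∧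
          (∀ x, ∃ i, x ∈ U i) ∧
          ∀ x, {i | ∃ y ∈ U i, G.dist x y ≤ R}.Finite ∧
            Set.ncard {i | ∃ y ∈ U i, G.dist x y ≤ R} ≤ n + 1) ∧
      (∃ K C : ℝ, 0 < K ∧ ∀ x y : V, ∃ f : V → V,
          (∀ a b : V, (G.dist a b : ℝ) / K - C ≤ (G.dist (f a) (f b) : ℝ) ∧
              (G.dist (f a) (f b) : ℝ) ≤ K * (G.dist a b : ℝ) + C) ∧
          (∀ z : V, ∃ a : V, (G.dist (f a) z : ℝ) ≤ C) ∧
          (G.dist (f x) y : ℝ) ≤ C) ∧
      ∀ (H : Type) [Group H] (S : Set H), S.Finite → Subgroup.closure S = ⊤ →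
        ¬ ∃ (φ : V → H) (K C : ℝ), 0 < K ∧
          (∀ a b : V,
              (G.dist a b : ℝ) / K - C ≤
                ((SimpleGraph.fromRel (fun g h : H => ∃ s ∈ S, h = g * s)).dist (φ a) (φ b) : ℝ) ∧
              ((SimpleGraph.fromRel (fun g h : H => ∃ s ∈ S, h = g * s)).dist (φ a) (φ b) : ℝ) ≤
                K * (G.dist a b : ℝ) + C) ∧
          (∀ h : H, ∃ a : V,
              ((SimpleGraph.fromRel (fun g h : H => ∃ s ∈ S, h = g * s)).dist (φ a) h : ℝ) ≤ C)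

theorem final (hP : S_PANSU) (hF : S_FORM) (hR : S_RIG) (hCh : S_CHAIN) (hD : S_DIST) (hG : S_GROW)
    (hA : S_ASD) (hT : S_TRANS) (hFP : S_FP) (hCay : S_CAY) (hCode : S_CODE) (hCo : S_COMP) :
    Target := by
  classical
  by_contra hcon
  have key : ∀ lam : ℝ, 0 < lam → lam < 1 / 2 → ∃ x : Σ k : ℕ, Finset (FreeGroup (Fin k)), Code lam x := by
    intro lam l0 l1
    by_contra hno
    apply hcon
    obtain ⟨b, hb, hs⟩ := hF lam l0 l1
    have hch := hCh lam b l0 l1 hb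
    obtain ⟨hconn, C₀, hC₀⟩ := hD b hch
    obtain ⟨hfin, hgr⟩ := hG b
    refine ⟨V, X b, hconn, hfin, hgr (fun v w => (hC₀.2 v w).1), hA b C₀ hC₀, hT b C₀ hC₀, ?_⟩
    intro H iH S hS hcl hex
    obtain ⟨φ, K, C, hK, h1, h2⟩ := hex
    obtain ⟨k, p, hp, hd⟩ := hCay H S hS hcl
    apply hno
    have h1' : Coarse (fun v w : V => ((X b).dist v w : ℝ)) (fun g h : H => (wl p (g⁻¹ * h) : ℝ)) φ K C := by
      intro a a'
      have := h1 a a'
      rw [hd] at this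
      exact this
    have h2' : ∀ h : H, ∃ a : V, (wl p ((φ a)⁻¹ * h) : ℝ) ≤ C := by
      intro h
      obtain ⟨a, ha⟩ := h2 h
      rw [hd] at ha
      exact ⟨a, ha⟩
    obtain ⟨F, L, M, hL, hF1, hF2⟩ := hCo b C₀ hC₀ H k p hp φ K C hK h1' h2'
    obtain ⟨R, hRR⟩ := hFP b H k p hp F L M hL hF1 hF2
    exact ⟨⟨k, R⟩, b, H, iH, p, F, L, M, hb, hs, hp, hL, hF1, hF2, hRR⟩
  choose! c hc using key
  have hinj : Set.InjOn c (Set.Ioo (0:ℝ) (1/2)) := by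
    intro lam hl mu hm he
    have h1 := hc lam hl.1 hl.2
    have h2 := hc mu hm.1 hm.2
    rw [← he] at h2
    exact code_inj hCode hP hR hl.1 hl.2 hm.1 hm.2 _ h1 h2
  have hcount : (Set.Ioo (0:ℝ) (1/2)).Countable := by
    have : Countable (Σ k : ℕ, Finset (FreeGroup (Fin k))) := by
      have : ∀ k : ℕ, Countable (FreeGroup (Fin k)) := fun k => by
        unfold FreeGroup
        infer_instance
      infer_instance
    exact Set.MapsTo.countable_of_injOn (Set.mapsTo_univ c _) hinj Set.countable_univ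
  have h0 : (MeasureTheory.volume (Set.Ioo (0:ℝ) (1/2))) = 0 := hcount.measure_zero _
  rw [Real.volume_Ioo] at h0
  norm_num at h0

end Pool.Agent.W317.CT
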