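import Pool.Agent.W317.CT.Rig

set_option autoImplicit false

namespace Pool.Agent.W317.CT

theorem om_abs (j : Fin 4) (x y : E) : |om j x y| ≤ 2 * ‖x‖ * ‖y‖ := by
  have h : ∀ (a c : Fin 8), |x a * y c| ≤ ‖x‖ * ‖y‖ := by
    intro a c
    rw [abs_mul]
    exact mul_le_mul (norm_le_pi_norm x a) (norm_le_pi_norm y c) (abs_nonneg _) (norm_nonneg _)
  unfold om
  refine (abs_sub _ _).trans ?_
  have h1 := h ⟨2 * j.1, by omega⟩ ⟨2 * j.1 + 1, by omega⟩
  have h2 := h ⟨2 * j.1 + 1, by omega⟩ ⟨2 * j.1, by omega⟩
  linarith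

theorem om_add_left (j : Fin 4) (x x' y : E) : om j (x + x') y = om j x y + om j x' y := by
  simp only [om, Pi.add_apply]; ring

theorem om_add_right (j : Fin 4) (x y y' : E) : om j x (y + y') = om j x y + om j x y' := by
  simp only [om, Pi.add_apply]; ring

theorem om_smul_left (j : Fin 4) (c : ℝ) (x y : E) : om j (c • x) y = c * om j x y := by
  simp only [om, Pi.smul_apply, smul_eq_mul]; ring

theorem om_smul_right (j : Fin 4) (c : ℝ) (x y : E) : om j x (c • y) = c * om j x y := by
  simp only [om, Pi.smul_apply, smul_eq_mul]; ring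

theorem om_self (j : Fin 4) (x : E) : om j x x = 0 := by
  simp only [om]; ring

noncomputable def BB (lam : ℝ) : E →ₗ[ℝ] E →ₗ[ℝ] W :=
  LinearMap.mk₂ ℝ (fun x y => (1 / 4 : ℝ) • ∑ j : Fin 4, om j x y • Z lam j)
    (by
      intro x x' y
      simp only [om_add_left, add_smul, Finset.sum_add_distrib, smul_add])
    (by
      intro c x y
      simp only [om_smul_left, mul_smul, ← Finset.smul_sum]
      rw [smul_comm])
    (by
      intro x y y'
      simp only [om_add_right, add_smul, Finset.sum_add_distrib, smul_add])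
    (by
      intro c x y
      simp only [om_smul_right, mul_smul, ← Finset.smul_sum]
      rw [smul_comm])

theorem form : S_FORM := by
  intro lam l0 l1
  let b : Form :=
    { B := BB lam
      alt := by
        intro x
        simp [BB, om_self]
      bd := by
        intro x y
        simp only [BB, LinearMap.mk₂_apply]
        have h := fun j => om_abs j x y
        have hn : 0 ≤ 2 * ‖x‖ * ‖y‖ := by positivity
        rw [pi_norm_le_iff_of_nonneg hn]
        intro i
        rw [Real.norm_eq_abs]
        have h0 := abs_le.1 (h 0)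
        have h1 := abs_le.1 (h 1)
        have h2 := abs_le.1 (h 2)
        have h3 := abs_le.1 (h 3)
        have h3' : |lam * om 3 x y| ≤ 2 * ‖x‖ * ‖y‖ := by
          rw [abs_mul, abs_of_pos l0]
          have := h 3
          have h5 : 0 ≤ |om 3 x y| := abs_nonneg _
          nlinarith
        have h4 := abs_le.1 h3'
        fin_cases i
        · simp only [Fin.sum_univ_four, Z]
          simp
          have h6 : |om 0 x y + om 2 x y + om 3 x y| ≤ 6 * ‖x‖ * ‖y‖ := by
            rw [abs_le]
            constructor <;> linarith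
          nlinarith
        · simp only [Fin.sum_univ_four, Z]
          simp
          have h6 : |om 1 x y + om 2 x y + om 3 x y * lam| ≤ 6 * ‖x‖ * ‖y‖ := by
            rw [abs_le]
            constructor <;> linarith
          nlinarith }
  have hb : IsForm lam b := fun x y => rfl
  refine ⟨b, hb, ?_⟩
  unfold Span
  rw [eq_top_iff]
  intro u _
  have hu : u = (4 * u 0) • b.B (e 0) (e 1) + (4 * u 1) • b.B (e 2) (e 3) := by
    have h1 := B_even_e hb (e 1) 0
    have h2 := B_even_e hb (e 3) 1
    have e1 : (e ⟨2 * (0 : Fin 4).1, by omega⟩ : E) = e 0 := rfl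
    have e2 : (e ⟨2 * (1 : Fin 4).1, by omega⟩ : E) = e 2 := rfl
    rw [e1] at h1
    rw [e2] at h2
    rw [h1, h2]
    have e3 : (e 1 : E) ⟨2 * (0 : Fin 4).1 + 1, by omega⟩ = 1 := by
      simp [e]
    have e4 : (e 3 : E) ⟨2 * (1 : Fin 4).1 + 1, by omega⟩ = 1 := by
      simp [e]
    rw [e3, e4]
    ext i
    fin_cases i
    · simp [Z]; ring
    · simp [Z]; ring
  rw [hu]
  apply Submodule.add_mem
  · exact Submodule.smul_mem _ _ (Submodule.subset_span ⟨(0, 1), rfl⟩)
  · exact Submodule.smul_mem _ _ (Submodule.subset_span ⟨(2, 3), rfl⟩)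

theorem net : S_NET := by
  intro b g
  let y : Fin 8 → ℤ := fun i => round (g.1 i)
  let yr : E := fun i => (y i : ℝ)
  let z : Fin 2 → ℤ := fun j => round ((g.2 - b.B yr g.1) j)
  refine ⟨(y, z), ?_⟩
  rw [d_eq]
  apply max_le
  · rw [pi_norm_le_iff_of_nonneg zero_le_one]
    intro i
    rw [Real.norm_eq_abs]
    have := abs_sub_round (g.1 i)
    simp only [iota, Pi.sub_apply]
    exact this.trans (by norm_num)
  · rw [Real.sqrt_le_left zero_le_one, one_pow, pi_norm_le_iff_of_nonneg zero_le_one]
    intro j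
    rw [Real.norm_eq_abs]
    have h := abs_sub_round ((g.2 - b.B yr g.1) j)
    have e1 : (g.2 - (iota (y, z)).2 - b.B (iota (y, z)).1 g.1) j =
        (g.2 - b.B yr g.1) j - (round ((g.2 - b.B yr g.1) j) : ℝ) := by
      have e2 : (iota (y, z)).1 = yr := rfl
      have e3 : (iota (y, z)).2 j = (round ((g.2 - b.B yr g.1) j) : ℝ) := rfl
      rw [e2]
      simp only [Pi.sub_apply] at e3 ⊢
      rw [e3]
      ring
    rw [e1]
    exact h.trans (by norm_num)

end Pool.Agent.W317.CT
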