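import Pool.Agent.W317.CT.Stm

set_option autoImplicit false
set_option linter.unusedSimpArgs false

namespace Pool.Agent.W317.CT

def br (p q : W) : ℝ := p 0 * q 1 - p 1 * q 0

theorem om_e_odd (x : E) (i j : Fin 4) :
    om i x (e ⟨2 * j.1 + 1, by omega⟩) = if i = j then x ⟨2 * j.1, by omega⟩ else 0 := by
  have h1 : (e ⟨2 * j.1 + 1, by omega⟩ : E) ⟨2 * i.1, by omega⟩ = 0 := by
    simp only [e, Pi.single_apply, Fin.mk.injEq]
    rw [if_neg (by omega)]
  have h2 : (e ⟨2 * j.1 + 1, by omega⟩ : E) ⟨2 * i.1 + 1, by omega⟩ = if i = j then 1 else 0 := by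
    simp only [e, Pi.single_apply, Fin.mk.injEq]
    by_cases h : i = j
    · rw [if_pos (by rw [h]), if_pos h]
    · rw [if_neg (by intro hh; apply h; ext; omega), if_neg h]
  simp only [om, h1, h2, mul_zero, sub_zero]
  by_cases h : i = j
  · subst h; simp
  · simp [h]

theorem om_e_even (x : E) (i j : Fin 4) :
    om i x (e ⟨2 * j.1, by omega⟩) = if i = j then -x ⟨2 * j.1 + 1, by omega⟩ else 0 := by
  have h1 : (e ⟨2 * j.1, by omega⟩ : E) ⟨2 * i.1 + 1, by omega⟩ = 0 := by
    simp only [e, Pi.single_apply, Fin.mk.injEq]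
    rw [if_neg (by omega)]
  have h2 : (e ⟨2 * j.1, by omega⟩ : E) ⟨2 * i.1, by omega⟩ = if i = j then 1 else 0 := by
    simp only [e, Pi.single_apply, Fin.mk.injEq]
    by_cases h : i = j
    · rw [if_pos (by rw [h]), if_pos h]
    · rw [if_neg (by intro hh; apply h; ext; omega), if_neg h]
  simp only [om, h1, h2, mul_zero, zero_sub]
  by_cases h : i = j
  · subst h; simp
  · simp [h]

theorem B_e_odd {lam : ℝ} {b : Form} (hb : IsForm lam b) (x : E) (j : Fin 4) :
    b.B x (e ⟨2 * j.1 + 1, by omega⟩) = (1 / 4 * x ⟨2 * j.1, by omega⟩) • Z lam j := by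
  rw [hb]
  simp only [om_e_odd, ite_smul, zero_smul, Finset.sum_ite_eq', Finset.mem_univ, if_true, smul_smul]

theorem B_e_even {lam : ℝ} {b : Form} (hb : IsForm lam b) (x : E) (j : Fin 4) :
    b.B x (e ⟨2 * j.1, by omega⟩) = (-(1 / 4 * x ⟨2 * j.1 + 1, by omega⟩)) • Z lam j := by
  rw [hb]
  simp only [om_e_even, ite_smul, zero_smul, Finset.sum_ite_eq', Finset.mem_univ, if_true, smul_smul]
  congr 1
  ring
theorem B_even_e {lam : ℝ} {b : Form} (hb : IsForm lam b) (y : E) (j : Fin 4) :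
    b.B (e ⟨2 * j.1, by omega⟩) y = (1 / 4 * y ⟨2 * j.1 + 1, by omega⟩) • Z lam j := by
  rw [B_swap, B_e_even hb, neg_smul, neg_neg]

theorem fin8 (x : E) (h : ∀ j : Fin 4, x ⟨2 * j.1, by omega⟩ = 0 ∧ x ⟨2 * j.1 + 1, by omega⟩ = 0) :
    x = 0 := by
  ext i
  have h0 := h 0
  have h1 := h 1
  have h2 := h 2
  have h3 := h 3
  fin_cases i
  · exact h0.1
  · exact h0.2
  · exact h1.1
  · exact h1.2
  · exact h2.1
  · exact h2.2
  · exact h3.1
  · exact h3.2

theorem step1 {lam mu : ℝ} {b b' : Form} (hb : IsForm lam b) (hb' : IsForm mu b')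
    (A : E →ₗ[ℝ] E) (T : W →ₗ[ℝ] W) (hA : Function.Injective A)
    (h : ∀ x y : E, T (b.B x y) = b'.B (A x) (A y)) (k : Fin 4) :
    ∃ j : Fin 4, br (T (Z lam j)) (Z mu k) = 0 := by
  have hAs : Function.Surjective A := LinearMap.injective_iff_surjective.1 hA
  obtain ⟨x, hx⟩ := hAs (e ⟨2 * k.1, by omega⟩)
  by_contra hno
  push Not at hno
  have hx0 : x = 0 := by
    apply fin8
    intro j
    have key : ∀ y : E, br (T (b.B x y)) (Z mu k) = 0 := by
      intro y
      rw [h, hx, B_even_e hb']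
      simp only [br, Pi.smul_apply, smul_eq_mul]
      ring
    have h1 := key (e ⟨2 * j.1 + 1, by omega⟩)
    have h2 := key (e ⟨2 * j.1, by omega⟩)
    rw [B_e_odd hb, map_smul] at h1
    rw [B_e_even hb, map_smul] at h2
    have hs : ∀ (c : ℝ) (p q : W), br (c • p) q = c * br p q := by
      intro c p q
      simp only [br, Pi.smul_apply, smul_eq_mul]
      ring
    rw [hs] at h1 h2
    have h3 := hno j
    constructor
    · have := (mul_eq_zero.1 h1).resolve_right h3
      linarith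
    · have := (mul_eq_zero.1 h2).resolve_right h3
      linarith
  rw [hx0, map_zero] at hx
  have := congrFun hx ⟨2 * k.1, by omega⟩
  simp [e] at this

theorem T_eq (T : W →ₗ[ℝ] W) (u : W) : T u = u 0 • T ![1, 0] + u 1 • T ![0, 1] := by
  rw [← map_smul, ← map_smul, ← map_add]
  congr 1
  ext i
  fin_cases i <;> simp

theorem br_T (T : W →ₗ[ℝ] W) (u v : W) : br (T u) (T v) = br (T ![1, 0]) (T ![0, 1]) * br u v := by
  rw [T_eq T u, T_eq T v]
  simp only [br, Pi.add_apply, Pi.smul_apply, smul_eq_mul]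
  ring

theorem D_ne (T : W →ₗ[ℝ] W) (hT : Function.Injective T) : br (T ![1, 0]) (T ![0, 1]) ≠ 0 := by
  intro hD
  have hz : ∀ u v : W, br (T u) (T v) = 0 := fun u v => by rw [br_T, hD, zero_mul]
  have hTs : Function.Surjective T := LinearMap.injective_iff_surjective.1 hT
  obtain ⟨u, hu⟩ := hTs ![1, 0]
  obtain ⟨v, hv⟩ := hTs ![0, 1]
  have := hz u v
  rw [hu, hv] at this
  simp [br] at this

theorem rig : S_RIG := by
  intro lam mu l0 l1 m0 m1 b b' hb hb' A T hA hT h
  obtain ⟨j0, h0⟩ := step1 hb hb' A T hA h 0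
  obtain ⟨j1, h1⟩ := step1 hb hb' A T hA h 1
  obtain ⟨j2, h2⟩ := step1 hb hb' A T hA h 2
  obtain ⟨j3, h3⟩ := step1 hb hb' A T hA h 3
  have hD := D_ne T hT
  set D := br (T ![1, 0]) (T ![0, 1]) with hDdef
  have hbr := br_T T
  rw [← hDdef] at hbr
  have hZne : ∀ j, Z lam j ≠ 0 := by
    intro j hj
    have e0 := congrFun hj 0
    have e1 := congrFun hj 1
    fin_cases j <;> simp [Z] at e0 e1
  have hTne : ∀ j, T (Z lam j) ≠ 0 := fun j hj => hZne j (hT (by rw [hj, map_zero]))
  have hv : ∀ j, ¬ (T (Z lam j) 0 = 0 ∧ T (Z lam j) 1 = 0) := by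
    intro j hj
    apply hTne j
    ext i
    fin_cases i
    · exact hj.1
    · exact hj.2
  have g0 : T (Z lam j0) 1 = 0 := by simpa [br, Z] using h0
  have g1 : T (Z lam j1) 0 = 0 := by simpa [br, Z] using h1
  have g2 : T (Z lam j2) 1 = T (Z lam j2) 0 := by
    have : T (Z lam j2) 0 * 1 - T (Z lam j2) 1 * 1 = 0 := by simpa [br, Z] using h2
    linarith
  have g3 : T (Z lam j3) 1 = mu * T (Z lam j3) 0 := by
    have : T (Z lam j3) 0 * mu - T (Z lam j3) 1 * 1 = 0 := by simpa [br, Z] using h3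
    linarith
  have n0 : T (Z lam j0) 0 ≠ 0 := fun hh => hv j0 ⟨hh, g0⟩
  have n1 : T (Z lam j1) 1 ≠ 0 := fun hh => hv j1 ⟨g1, hh⟩
  have n2 : T (Z lam j2) 0 ≠ 0 := fun hh => hv j2 ⟨hh, by rw [g2, hh]⟩
  have n3 : T (Z lam j3) 0 ≠ 0 := fun hh => hv j3 ⟨hh, by rw [g3, hh, mul_zero]⟩
  have c01 := hbr (Z lam j0) (Z lam j1)
  have c02 := hbr (Z lam j0) (Z lam j2)
  have c03 := hbr (Z lam j0) (Z lam j3)
  have c12 := hbr (Z lam j1) (Z lam j2)
  have c13 := hbr (Z lam j1) (Z lam j3)
  have c23 := hbr (Z lam j2) (Z lam j3)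
  simp only [br, g0, g1, g2, g3] at c01 c02 c03 c12 c13 c23
  generalize T (Z lam j0) 0 = α at *
  generalize T (Z lam j1) 1 = β at *
  generalize T (Z lam j2) 0 = γ at *
  generalize T (Z lam j3) 0 = δ at *
  have cr : mu * (br (Z lam j1) (Z lam j3) * br (Z lam j0) (Z lam j2)) =
      br (Z lam j0) (Z lam j3) * br (Z lam j1) (Z lam j2) := by
    have hD2 : D * D ≠ 0 := mul_ne_zero hD hD
    apply mul_left_cancel₀ hD2
    simp only [br]
    linear_combination (-mu * (α * γ)) * c13 - mu * D * (Z lam j1 0 * Z lam j3 1 - Z lam j1 1 * Z lam j3 0) * c02 + (-(β * γ)) * c03 + D * (Z lam j0 0 * Z lam j3 1 - Z lam j0 1 * Z lam j3 0) * c12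
  have d01 : j0 ≠ j1 := by
    intro hh
    rw [hh] at c01
    have : α * β = 0 := by linear_combination c01
    exact (mul_ne_zero n0 n1) this
  have d02 : j0 ≠ j2 := by
    intro hh
    rw [hh] at c02
    have : α * γ = 0 := by linear_combination c02
    exact (mul_ne_zero n0 n2) this
  have d03 : j0 ≠ j3 := by
    intro hh
    rw [hh] at c03
    have : mu * (α * δ) = 0 := by linear_combination c03
    exact (mul_ne_zero m0.ne' (mul_ne_zero n0 n3)) this
  have d12 : j1 ≠ j2 := by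
    intro hh
    rw [hh] at c12
    have : β * γ = 0 := by linear_combination -c12
    exact (mul_ne_zero n1 n2) this
  have d13 : j1 ≠ j3 := by
    intro hh
    rw [hh] at c13
    have : β * δ = 0 := by linear_combination -c13
    exact (mul_ne_zero n1 n3) this
  have d23 : j2 ≠ j3 := by
    intro hh
    rw [hh] at c23
    have : (mu - 1) * (γ * δ) = 0 := by linear_combination c23
    exact (mul_ne_zero (by intro h; linarith) (mul_ne_zero n2 n3)) this
  clear c01 c02 c03 c12 c13 c23 h0 h1 h2 h3 g0 g1 g2 g3 n0 n1 n2 n3 hv hTne hZne hbr hD hA hT h hb hb'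
  revert j0 j1 j2 j3
  intro j0 j1 j2 j3 cr d01 d02 d03 d12 d13 d23
  fin_cases j0 <;> fin_cases j1 <;> first
    | exact absurd rfl d01
    | (fin_cases j2 <;> first
        | exact absurd rfl d02
        | exact absurd rfl d12
        | (fin_cases j3 <;> first
            | exact absurd rfl d03
            | exact absurd rfl d13
            | exact absurd rfl d23
            | (simp [br, Z] at cr; first | linarith | nlinarith)))

end Pool.Agent.W317.CT
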