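import Pool.Agent.W317.CT.Defs

set_option autoImplicit false

/-! Basic API for the group law, the norm, the metric and the dilations. -/

namespace Pool.Agent.W317.CT

variable (b : Form)

theorem B_swap (x y : E) : b.B x y = - b.B y x := by
  have h := b.alt (x + y)
  simp only [map_add, LinearMap.add_apply, b.alt, zero_add, add_zero] at h
  exact eq_neg_of_add_eq_zero_left (by rw [add_comm]; exact h)

theorem mul_assoc' (g h k : E × W) : mul b (mul b g h) k = mul b g (mul b h k) := by
  simp only [mul, map_add, LinearMap.add_apply, Prod.mk.injEq]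
  constructor
  · abel
  · abel

@[simp] theorem mul_zero' (g : E × W) : mul b g 0 = g := by
  simp [mul]

@[simp] theorem zero_mul' (g : E × W) : mul b 0 g = g := by
  simp [mul]

@[simp] theorem inv_mul' (g : E × W) : mul b (inv g) g = 0 := by
  simp only [mul, inv, map_neg, LinearMap.neg_apply, b.alt]
  ext <;> simp

@[simp] theorem mul_inv' (g : E × W) : mul b g (inv g) = 0 := by
  simp only [mul, inv, map_neg, b.alt]
  ext <;> simp

@[simp] theorem inv_mul_cancel_left' (g h : E × W) : mul b (inv g) (mul b g h) = h := by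
  rw [← mul_assoc', inv_mul', zero_mul']

@[simp] theorem mul_inv_cancel_left' (g h : E × W) : mul b g (mul b (inv g) h) = h := by
  rw [← mul_assoc', mul_inv', zero_mul']

@[simp] theorem mul_inv_cancel_right' (g h : E × W) : mul b (mul b g h) (inv h) = g := by
  rw [mul_assoc', mul_inv', mul_zero']

@[simp] theorem inv_mul_cancel_right' (g h : E × W) : mul b (mul b g (inv h)) h = g := by
  rw [mul_assoc', inv_mul', mul_zero']

@[simp] theorem inv_inv' (g : E × W) : inv (inv g) = g := by
  simp [inv]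

@[simp] theorem inv_zero' : inv (0 : E × W) = 0 := by
  simp [inv]

theorem mul_left_cancel' {g h k : E × W} (hh : mul b g h = mul b g k) : h = k := by
  have := congrArg (mul b (inv g)) hh
  simpa using this

theorem inv_mul_rev (g h : E × W) : inv (mul b g h) = mul b (inv h) (inv g) := by
  simp only [mul, inv, map_neg, LinearMap.neg_apply, neg_neg, Prod.mk.injEq]
  constructor
  · abel
  · rw [B_swap b h.1 g.1]; abel

theorem N_nonneg (g : E × W) : 0 ≤ N g := le_max_of_le_left (norm_nonneg _)

theorem norm_fst_le_N (g : E × W) : ‖g.1‖ ≤ N g := le_max_left _ _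

theorem norm_snd_le_N (g : E × W) : ‖g.2‖ ≤ N g ^ 2 := by
  have h : Real.sqrt ‖g.2‖ ≤ N g := le_max_right _ _
  calc ‖g.2‖ = Real.sqrt ‖g.2‖ ^ 2 := (Real.sq_sqrt (norm_nonneg _)).symm
    _ ≤ N g ^ 2 := by
      apply pow_le_pow_left₀ (Real.sqrt_nonneg _) h

theorem N_le {g : E × W} {r : ℝ} (hr : 0 ≤ r) (h1 : ‖g.1‖ ≤ r) (h2 : ‖g.2‖ ≤ r ^ 2) : N g ≤ r := by
  apply max_le h1
  rw [Real.sqrt_le_left hr]
  exact h2

@[simp] theorem N_zero : N (0 : E × W) = 0 := by simp [N]

@[simp] theorem N_inv (g : E × W) : N (inv g) = N g := by simp [N, inv]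

theorem N_eq_zero {g : E × W} (h : N g = 0) : g = 0 := by
  have h1 := norm_fst_le_N g
  have h2 := norm_snd_le_N g
  rw [h] at h1 h2
  have e1 : g.1 = 0 := norm_le_zero_iff.1 h1
  have e2 : g.2 = 0 := norm_le_zero_iff.1 (by simpa using h2)
  exact Prod.ext e1 e2

theorem N_mul_le (g h : E × W) : N (mul b g h) ≤ N g + N h := by
  apply N_le (add_nonneg (N_nonneg _) (N_nonneg _))
  · exact (norm_add_le _ _).trans (add_le_add (norm_fst_le_N _) (norm_fst_le_N _))
  · have h1 := norm_snd_le_N g
    have h2 := norm_snd_le_N h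
    have h3 := b.bd g.1 h.1
    have h4 := norm_fst_le_N g
    have h5 := norm_fst_le_N h
    have h6 : ‖g.1‖ * ‖h.1‖ ≤ N g * N h := mul_le_mul h4 h5 (norm_nonneg _) (N_nonneg _)
    calc ‖(mul b g h).2‖ ≤ ‖g.2 + h.2‖ + ‖b.B g.1 h.1‖ := norm_add_le _ _
      _ ≤ ‖g.2‖ + ‖h.2‖ + ‖b.B g.1 h.1‖ := by gcongr; exact norm_add_le _ _
      _ ≤ (N g + N h) ^ 2 := by nlinarith

theorem d_def (g h : E × W) : d b g h = N (mul b (inv g) h) := rfl

theorem d_eq (g h : E × W) :
    d b g h = max ‖h.1 - g.1‖ (Real.sqrt ‖h.2 - g.2 - b.B g.1 h.1‖) := by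
  have e1 : -g.1 + h.1 = h.1 - g.1 := by abel
  have e2 : -g.2 + h.2 + -(b.B g.1 h.1) = h.2 - g.2 - b.B g.1 h.1 := by abel
  simp only [d, N, mul, inv, map_neg, LinearMap.neg_apply]
  rw [e1, e2]

theorem d_nonneg (g h : E × W) : 0 ≤ d b g h := N_nonneg _

@[simp] theorem d_self (g : E × W) : d b g g = 0 := by simp [d]

theorem d_comm (g h : E × W) : d b g h = d b h g := by
  rw [d, d, ← N_inv, inv_mul_rev, inv_inv']

theorem d_tri (g h k : E × W) : d b g k ≤ d b g h + d b h k := by
  have : mul b (inv g) k = mul b (mul b (inv g) h) (mul b (inv h) k) := by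
    rw [mul_assoc', mul_inv_cancel_left']
  rw [d, this]
  exact N_mul_le b _ _

theorem d_eq_zero {g h : E × W} (hh : d b g h = 0) : g = h := by
  have h1 := N_eq_zero hh
  have h2 := congrArg (mul b g) h1
  simp only [mul_inv_cancel_left', mul_zero'] at h2
  exact h2.symm

@[simp] theorem d_mul_left (g h k : E × W) : d b (mul b g h) (mul b g k) = d b h k := by
  rw [d, d, inv_mul_rev, mul_assoc', inv_mul_cancel_left']

theorem d_mul_right_self (g h : E × W) : d b g (mul b g h) = N h := by
  rw [d, inv_mul_cancel_left']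

@[simp] theorem d_zero_left (g : E × W) : d b 0 g = N g := by simp [d]

theorem dil_mul (t : ℝ) (g h : E × W) : dil t (mul b g h) = mul b (dil t g) (dil t h) := by
  simp only [dil, mul, smul_add, map_smul, LinearMap.smul_apply, smul_smul, Prod.mk.injEq, true_and]
  rw [pow_two]

@[simp] theorem dil_zero' (t : ℝ) : dil t (0 : E × W) = 0 := by simp [dil]

@[simp] theorem dil_zero_left (g : E × W) : dil 0 g = 0 := by simp [dil]

@[simp] theorem dil_one (g : E × W) : dil 1 g = g := by simp [dil]

theorem dil_inv (t : ℝ) (g : E × W) : dil t (inv g) = inv (dil t g) := by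
  simp [dil, inv]

theorem dil_dil (s t : ℝ) (g : E × W) : dil s (dil t g) = dil (s * t) g := by
  simp only [dil, smul_smul, mul_pow]

theorem N_dil (t : ℝ) (g : E × W) : N (dil t g) = |t| * N g := by
  simp only [N, dil, norm_smul, Real.norm_eq_abs, abs_pow, sq_abs]
  rw [mul_max_of_nonneg _ _ (abs_nonneg t), Real.sqrt_mul (sq_nonneg t), Real.sqrt_sq_eq_abs]

theorem d_dil (t : ℝ) (g h : E × W) : d b (dil t g) (dil t h) = |t| * d b g h := by
  rw [d, ← dil_inv, ← dil_mul, N_dil, d]

@[simp] theorem norm_e (i : Fin 8) : ‖e i‖ = 1 := by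
  simp only [e]
  rw [Pi.norm_single]
  simp

theorem sum_e (x : E) : x = ∑ i, x i • e i := by
  ext j
  simp [e, Finset.sum_apply, Pi.single_apply]

@[simp] theorem st_zero (i : Fin 8) : st i 0 = 0 := by simp [st]

theorem st_mul (i : Fin 8) (s t : ℝ) : mul b (st i s) (st i t) = st i (s + t) := by
  simp only [mul, st, map_smul, LinearMap.smul_apply, b.alt, smul_zero, add_zero, add_smul]

theorem inv_st (i : Fin 8) (t : ℝ) : inv (st i t) = st i (-t) := by
  simp [inv, st]

theorem dil_st (i : Fin 8) (s t : ℝ) : dil s (st i t) = st i (s * t) := by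
  simp [dil, st, smul_smul]

@[simp] theorem N_st (i : Fin 8) (t : ℝ) : N (st i t) = |t| := by
  simp [N, st, norm_smul]

theorem d_st (g : E × W) (i : Fin 8) (s t : ℝ) :
    d b (mul b g (st i s)) (mul b g (st i t)) = |t - s| := by
  rw [d_mul_left, d, inv_st, st_mul, N_st]
  congr 1; ring

/-- conjugation -/
theorem conj_eq (g h : E × W) :
    mul b (inv h) (mul b g h) = (g.1, g.2 + (2 : ℝ) • b.B g.1 h.1) := by
  simp only [mul, inv, map_add, LinearMap.add_apply, map_neg, LinearMap.neg_apply, b.alt, Prod.mk.injEq]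
  constructor
  · abel
  · rw [B_swap b h.1 g.1, two_smul]; abel

/-- commutator -/
theorem comm_eq (g h : E × W) :
    mul b (mul b g h) (mul b (inv g) (inv h)) = (0, (2 : ℝ) • b.B g.1 h.1) := by
  simp only [mul, inv, map_add, LinearMap.add_apply, map_neg, LinearMap.neg_apply, b.alt, Prod.mk.injEq,
    neg_neg]
  constructor
  · abel
  · rw [B_swap b h.1 g.1, two_smul]; abel

theorem continuous_N : Continuous N := by
  unfold N
  fun_prop

theorem continuous_B : Continuous fun p : E × E => b.B p.1 p.2 := by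
  have h : Continuous fun p : E × E => ∑ i, ∑ j, (p.1 i * p.2 j) • b.B (e i) (e j) := by
    fun_prop
  refine h.congr ?_
  intro p
  conv_rhs => rw [sum_e p.1, sum_e p.2]
  simp only [map_sum, LinearMap.sum_apply, map_smul, LinearMap.smul_apply, Finset.smul_sum, smul_smul]
  rw [Finset.sum_comm]
  refine Finset.sum_congr rfl fun i _ => Finset.sum_congr rfl fun j _ => ?_
  rw [mul_comm]

theorem continuous_mul' : Continuous fun p : (E × W) × (E × W) => mul b p.1 p.2 := by
  unfold mul
  have h := continuous_B b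
  have h2 : Continuous fun p : (E × W) × (E × W) => b.B p.1.1 p.2.1 :=
    h.comp (by fun_prop : Continuous fun p : (E × W) × (E × W) => (p.1.1, p.2.1))
  fun_prop

theorem continuous_inv' : Continuous (inv : E × W → E × W) := by
  unfold inv
  fun_prop

theorem continuous_dil (t : ℝ) : Continuous (dil t) := by
  unfold dil
  fun_prop

theorem continuous_d : Continuous fun p : (E × W) × (E × W) => d b p.1 p.2 := by
  unfold d
  exact continuous_N.comp ((continuous_mul' b).comp
    ((continuous_inv'.comp continuous_fst).prodMk continuous_snd))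

theorem dil_near (s t : ℝ) (g : E × W) :
    d b (dil s g) (dil t g) = max (|t - s| * ‖g.1‖) (Real.sqrt (|t ^ 2 - s ^ 2| * ‖g.2‖)) := by
  rw [d_eq]
  simp only [dil, map_smul, LinearMap.smul_apply, b.alt, smul_zero, sub_zero]
  rw [← sub_smul, ← sub_smul, norm_smul, norm_smul, Real.norm_eq_abs, Real.norm_eq_abs]

end Pool.Agent.W317.CT
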