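import Mathlib

set_option autoImplicit false

/-! Nets in two-step nilpotent groups (10-dimensional: horizontal layer `E`, centre `W`), their
homogeneous left-invariant metric, the graphs `X lam`, word lengths, and the statements of the parts. -/

namespace Pool.Agent.W317.CT

/-- horizontal layer (sup norm) -/
abbrev E : Type := Fin 8 → ℝ
/-- centre (sup norm) -/
abbrev W : Type := Fin 2 → ℝ

/-- an alternating bilinear map `E × E → W` of norm at most two -/
structure Form where
  B : E →ₗ[ℝ] E →ₗ[ℝ] W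
  alt : ∀ x : E, B x x = 0
  bd : ∀ x y : E, ‖B x y‖ ≤ 2 * ‖x‖ * ‖y‖

/-- group law -/
def mul (b : Form) (g h : E × W) : E × W := (g.1 + h.1, g.2 + h.2 + b.B g.1 h.1)

/-- inverse -/
def inv (g : E × W) : E × W := (-g.1, -g.2)

/-- homogeneous norm -/
noncomputable def N (g : E × W) : ℝ := max ‖g.1‖ (Real.sqrt ‖g.2‖)

/-- left-invariant homogeneous metric -/
noncomputable def d (b : Form) (g h : E × W) : ℝ := N (mul b (inv g) h)

/-- dilations -/
def dil (t : ℝ) (g : E × W) : E × W := (t • g.1, t ^ 2 • g.2)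

/-- the `i`-th basis vector of the horizontal layer -/
noncomputable def e (i : Fin 8) : E := Pi.single i 1

/-- the point `exp (t e_i)` -/
noncomputable def st (i : Fin 8) (t : ℝ) : E × W := (t • e i, 0)

/-- two-sided coarse inequality for two distance functions -/
def Coarse {X Y : Type} (dX : X → X → ℝ) (dY : Y → Y → ℝ) (f : X → Y) (K C : ℝ) : Prop :=
  ∀ a b : X, dX a b / K - C ≤ dY (f a) (f b) ∧ dY (f a) (f b) ≤ K * dX a b + C

/-- bi-Lipschitz -/
def BiLip {X Y : Type} (dX : X → X → ℝ) (dY : Y → Y → ℝ) (f : X → Y) (K : ℝ) : Prop :=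
  ∀ a b : X, dX a b / K ≤ dY (f a) (f b) ∧ dY (f a) (f b) ≤ K * dX a b

/-- the four symplectic blocks -/
def om (j : Fin 4) (x y : E) : ℝ :=
  x ⟨2 * j.1, by omega⟩ * y ⟨2 * j.1 + 1, by omega⟩ - x ⟨2 * j.1 + 1, by omega⟩ * y ⟨2 * j.1, by omega⟩

/-- the four central directions `(1,0), (0,1), (1,1), (1,lam)` -/
def Z (lam : ℝ) (j : Fin 4) : W := ![![1, 0], ![0, 1], ![1, 1], ![1, lam]] j

/-- integer points -/
abbrev V : Type := (Fin 8 → ℤ) × (Fin 2 → ℤ)

/-- the inclusion of integer points -/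
def iota (v : V) : E × W := (fun i => (v.1 i : ℝ), fun i => (v.2 i : ℝ))

/-- the graph on the integer points: neighbours are at distance at most three -/
def X (b : Form) : SimpleGraph V where
  Adj v w := v ≠ w ∧ d b (iota v) (iota w) ≤ 3 ∧ d b (iota w) (iota v) ≤ 3
  symm := ⟨fun _ _ h => ⟨h.1.symm, h.2.2, h.2.1⟩⟩
  loopless := ⟨fun _ h => h.1 rfl⟩

/-- a form is generic enough: every element of the centre is a sum of two values -/
def Gen (b : Form) : Prop := ∀ u : W, ∃ x y x' y' : E, u = b.B x y + b.B x' y'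

/-- the centre is spanned by the brackets of the basis -/
def Span (b : Form) : Prop :=
  Submodule.span ℝ (Set.range fun ij : Fin 8 × Fin 8 => b.B (e ij.1) (e ij.2)) = ⊤

/-- word length of `g` with respect to `p : FreeGroup (Fin k) →* H` -/
noncomputable def wl {H : Type} [Group H] {k : ℕ} (p : FreeGroup (Fin k) →* H) (g : H) : ℕ :=
  sInf {n | ∃ w : FreeGroup (Fin k), w.norm = n ∧ p w = g}

/-- bounded real functions on `E × W` -/
def Bdd (f : E × W → ℝ) : Prop := ∃ M : ℝ, ∀ x, |f x| ≤ M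

/-- a right-invariant mean on the bounded functions -/
structure IsMean (b : Form) (m : (E × W → ℝ) → ℝ) : Prop where
  add : ∀ f g, Bdd f → Bdd g → m (fun x => f x + g x) = m f + m g
  smul : ∀ (c : ℝ) f, Bdd f → m (fun x => c * f x) = c * m f
  nonneg : ∀ f, Bdd f → (∀ x, 0 ≤ f x) → 0 ≤ m f
  one : m (fun _ => 1) = 1
  inv : ∀ f, Bdd f → ∀ h : E × W, m (fun x => f (mul b x h)) = m f

end Pool.Agent.W317.CT
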