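import Pool.Agent.W317.CT.Basic

set_option autoImplicit false

/-! Statements of the parts (project CT, problem MP_616471_al). -/

namespace Pool.Agent.W317.CT

/-- CT-MEAN: existence of a right-invariant mean -/
def S_MEAN : Prop := ∀ b : Form, ∃ m : (E × W → ℝ) → ℝ, IsMean b m

/-- CT-ENER: at some place and some scale a Lipschitz map has almost constant slopes along the basis
directions -/
def S_ENER : Prop :=
  ∀ (b : Form) (m : (E × W → ℝ) → ℝ), IsMean b m → ∀ (φ : E × W → E) (K : ℝ),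
    (∀ g h, ‖φ g - φ h‖ ≤ K * d b g h) → ∀ ε : ℝ, 0 < ε → ∀ Y : Finset (E × W),
    ∃ (s : ℝ) (x : E × W), 0 < s ∧ ∀ y ∈ Y, ∀ i : Fin 8,
      ‖(φ (mul b x (dil s (mul b y (st i 1)))) - φ (mul b x (dil s y))) -
        (φ (mul b x (dil s (st i 1))) - φ x)‖ ≤ ε * s

/-- CT-LIM: ultralimits of pointwise bounded maps -/
def S_LIM : Prop :=
  ∀ (I : Type) (U : Ultrafilter I) (F : I → E × W → E × W),
    (∀ g, ∃ r : ℝ, ∀ᶠ n in (U : Filter I), N (F n g) ≤ r) →
    ∃ G : E × W → E × W, ∀ g, Filter.Tendsto (fun n => F n g) (U : Filter I) (nhds (G g))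

/-- CT-BILIP: a coarse embedding can be rescaled to a bi-Lipschitz one -/
def S_BILIP : Prop :=
  ∀ (b b' : Form) (F : E × W → E × W) (K C : ℝ), 0 < K → Coarse (d b) (d b') F K C →
    ∃ G : E × W → E × W, G 0 = 0 ∧ BiLip (d b) (d b') G K

/-- CT-UNIT: blow up at a good place -/
def S_UNIT : Prop :=
  ∀ (b b' : Form) (F : E × W → E × W) (K : ℝ), 0 < K → F 0 = 0 → BiLip (d b) (d b') F K →
    ∃ (G : E × W → E × W) (a : Fin 8 → E), G 0 = 0 ∧ BiLip (d b) (d b') G K ∧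
      ∀ (y : E × W) (i : Fin 8), (G (mul b y (st i 1))).1 = (G y).1 + a i

/-- CT-ZOOM: blow down -/
def S_ZOOM : Prop :=
  ∀ (b b' : Form) (F : E × W → E × W) (K : ℝ) (a : Fin 8 → E), 0 < K → F 0 = 0 →
    BiLip (d b) (d b') F K →
    (∀ (y : E × W) (i : Fin 8), (F (mul b y (st i 1))).1 = (F y).1 + a i) →
    ∃ G : E × W → E × W, G 0 = 0 ∧ BiLip (d b) (d b') G K ∧
      ∀ (y : E × W) (i : Fin 8) (t : ℝ), (G (mul b y (st i t))).1 = (G y).1 + t • a i

/-- CT-STR: curves with constant horizontal velocity are straight -/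
def S_STR : Prop :=
  ∀ (b b' : Form) (F : E × W → E × W) (K : ℝ) (a : Fin 8 → E), 0 < K →
    BiLip (d b) (d b') F K →
    (∀ (y : E × W) (i : Fin 8) (t : ℝ), (F (mul b y (st i t))).1 = (F y).1 + t • a i) →
    ∀ (y : E × W) (i : Fin 8) (t : ℝ), F (mul b y (st i t)) = mul b' (F y) (t • a i, 0)

/-- CT-HOM: such a map is a homomorphism -/
def S_HOM : Prop :=
  ∀ (b b' : Form) (F : E × W → E × W) (a : Fin 8 → E), Span b → F 0 = 0 →
    (∀ (y : E × W) (i : Fin 8) (t : ℝ), F (mul b y (st i t)) = mul b' (F y) (t • a i, 0)) →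
    ∀ g h : E × W, F (mul b g h) = mul b' (F g) (F h)

/-- CT-ALG: a bi-Lipschitz homomorphism gives linear injections compatible with the forms -/
def S_ALG : Prop :=
  ∀ (b b' : Form) (F : E × W → E × W) (K : ℝ), 0 < K → BiLip (d b) (d b') F K →
    (∀ g h : E × W, F (mul b g h) = mul b' (F g) (F h)) →
    ∃ (A : E →ₗ[ℝ] E) (T : W →ₗ[ℝ] W), Function.Injective A ∧ Function.Injective T ∧
      ∀ x y : E, T (b.B x y) = b'.B (A x) (A y)

/-- Pansu type rigidity -/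
def S_PANSU : Prop :=
  ∀ (b b' : Form) (F : E × W → E × W) (K C : ℝ), 0 < K → Span b → Coarse (d b) (d b') F K C →
    ∃ (A : E →ₗ[ℝ] E) (T : W →ₗ[ℝ] W), Function.Injective A ∧ Function.Injective T ∧
      ∀ x y : E, T (b.B x y) = b'.B (A x) (A y)

/-- `b` is the form with the four central directions `Z lam j` -/
def IsForm (lam : ℝ) (b : Form) : Prop :=
  ∀ x y : E, b.B x y = (1 / 4 : ℝ) • ∑ j : Fin 4, om j x y • Z lam j

/-- CT-FORM: existence of the form -/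
def S_FORM : Prop := ∀ lam : ℝ, 0 < lam → lam < 1 / 2 → ∃ b : Form, IsForm lam b ∧ Span b

/-- CT-RIG: the parameter is an invariant of the form -/
def S_RIG : Prop :=
  ∀ (lam mu : ℝ), 0 < lam → lam < 1 / 2 → 0 < mu → mu < 1 / 2 →
    ∀ (b b' : Form), IsForm lam b → IsForm mu b' →
    ∀ (A : E →ₗ[ℝ] E) (T : W →ₗ[ℝ] W), Function.Injective A → Function.Injective T →
      (∀ x y : E, T (b.B x y) = b'.B (A x) (A y)) → lam = mu

/-- any two points are joined by a chain of steps of length at most one -/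
def Chains (b : Form) : Prop :=
  ∃ C : ℝ, 0 < C ∧ ∀ g h : E × W, ∃ (n : ℕ) (c : ℕ → E × W), c 0 = g ∧ c n = h ∧
    (∀ i, i < n → d b (c i) (c (i + 1)) ≤ 1) ∧ (n : ℝ) ≤ C * (d b g h + 1)

/-- CT-CHAIN -/
def S_CHAIN : Prop := ∀ (lam : ℝ) (b : Form), 0 < lam → lam < 1 / 2 → IsForm lam b → Chains b

/-- CT-NET: the integer points are a net -/
def S_NET : Prop := ∀ (b : Form) (g : E × W), ∃ v : V, d b (iota v) g ≤ 1

/-- comparison of the graph distance with the metric -/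
def Comp (b : Form) (C : ℝ) : Prop :=
  0 < C ∧ ∀ v w : V, d b (iota v) (iota w) ≤ 3 * ((X b).dist v w : ℝ) ∧
    ((X b).dist v w : ℝ) ≤ C * (d b (iota v) (iota w) + 1)

/-- CT-DIST -/
def S_DIST : Prop := ∀ b : Form, Chains b → (X b).Connected ∧ ∃ C : ℝ, Comp b C

/-- CT-GROW: finite degrees and polynomial growth -/
def S_GROW : Prop :=
  ∀ b : Form, (∀ v, ((X b).neighborSet v).Finite) ∧
    ((∀ v w : V, d b (iota v) (iota w) ≤ 3 * ((X b).dist v w : ℝ)) →
      ∃ (v₀ : V) (c dd : ℕ), ∀ r : ℕ, Set.ncard {w | (X b).dist v₀ w ≤ r} ≤ c * (r + 1) ^ dd)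

/-- CT-ASD: finite asymptotic dimension -/
def S_ASD : Prop :=
  ∀ (b : Form) (C : ℝ), Comp b C →
    ∃ n : ℕ, ∀ R : ℕ, ∃ (ι : Type) (U : ι → Set V) (D : ℕ),
      (∀ i, ∀ x ∈ U i, ∀ y ∈ U i, (X b).dist x y ≤ D) ∧
      (∀ x, ∃ i, x ∈ U i) ∧
      ∀ x, {i | ∃ y ∈ U i, (X b).dist x y ≤ R}.Finite ∧
        Set.ncard {i | ∃ y ∈ U i, (X b).dist x y ≤ R} ≤ n + 1

/-- CT-TRANS: coarse transitivity -/
def S_TRANS : Prop :=
  ∀ (b : Form) (C₀ : ℝ), Comp b C₀ →
    ∃ K C : ℝ, 0 < K ∧ ∀ x y : V, ∃ f : V → V,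
      (∀ a a' : V, ((X b).dist a a' : ℝ) / K - C ≤ ((X b).dist (f a) (f a') : ℝ) ∧
        ((X b).dist (f a) (f a') : ℝ) ≤ K * ((X b).dist a a' : ℝ) + C) ∧
      (∀ z : V, ∃ a : V, ((X b).dist (f a) z : ℝ) ≤ C) ∧
      ((X b).dist (f x) y : ℝ) ≤ C

/-- CT-FP: a group coarsely equivalent to `(E × W, d)` is finitely presented -/
def S_FP : Prop :=
  ∀ (b : Form) (H : Type) [Group H] (k : ℕ) (p : FreeGroup (Fin k) →* H), Function.Surjective p →
    ∀ (F : E × W → H) (K C : ℝ), 0 < K →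
      Coarse (d b) (fun g h : H => (wl p (g⁻¹ * h) : ℝ)) F K C →
      (∀ h : H, ∃ a : E × W, (wl p ((F a)⁻¹ * h) : ℝ) ≤ C) →
      ∃ R : Finset (FreeGroup (Fin k)),
        Subgroup.normalClosure (R : Set (FreeGroup (Fin k))) = p.ker

/-- CT-CAY: the distance of the Cayley graph is the word length -/
def S_CAY : Prop :=
  ∀ (H : Type) [Group H] (S : Set H), S.Finite → Subgroup.closure S = ⊤ →
    ∃ (k : ℕ) (p : FreeGroup (Fin k) →* H), Function.Surjective p ∧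
      ∀ g h : H, (SimpleGraph.fromRel (fun g h : H => ∃ s ∈ S, h = g * s)).dist g h =
        wl p (g⁻¹ * h)

/-- CT-CODE: two groups with the same relators, coarsely equivalent to two such metrics, give a coarse
embedding of one metric in the other -/
def S_CODE : Prop :=
  ∀ (b b' : Form) (H H' : Type) [Group H] [Group H'] (k : ℕ) (p : FreeGroup (Fin k) →* H)
    (p' : FreeGroup (Fin k) →* H'), Function.Surjective p → Function.Surjective p' →
    p.ker = p'.ker →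
    ∀ (F : E × W → H) (F' : E × W → H') (K C K' C' : ℝ), 0 < K → 0 < K' →
      Coarse (d b) (fun g h : H => (wl p (g⁻¹ * h) : ℝ)) F K C →
      Coarse (d b') (fun g h : H' => (wl p' (g⁻¹ * h) : ℝ)) F' K' C' →
      (∀ h : H', ∃ a : E × W, (wl p' ((F' a)⁻¹ * h) : ℝ) ≤ C') →
      ∃ (f : E × W → E × W) (L M : ℝ), 0 < L ∧ Coarse (d b) (d b') f L M

/-- CT-COMP: a coarse map on the vertices gives one on `E × W` -/
def S_COMP : Prop :=
  ∀ (b : Form) (C₀ : ℝ), Comp b C₀ →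
    ∀ (H : Type) [Group H] (k : ℕ) (p : FreeGroup (Fin k) →* H), Function.Surjective p →
    ∀ (φ : V → H) (K C : ℝ), 0 < K →
      Coarse (fun v w : V => ((X b).dist v w : ℝ)) (fun g h : H => (wl p (g⁻¹ * h) : ℝ)) φ K C →
      (∀ h : H, ∃ a : V, (wl p ((φ a)⁻¹ * h) : ℝ) ≤ C) →
      ∃ (F : E × W → H) (L M : ℝ), 0 < L ∧
        Coarse (d b) (fun g h : H => (wl p (g⁻¹ * h) : ℝ)) F L M ∧
        ∀ h : H, ∃ a : E × W, (wl p ((F a)⁻¹ * h) : ℝ) ≤ M

end Pool.Agent.W317.CT
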